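import Pool.Agent.E8helper67.CFN.Main

/-!
No set of distribution normal numbers of a Cantor series equals the set of continued-fraction normal
numbers: for every countable family of basic sequences there are uncountably many real numbers which
are normal with respect to the regular continued fraction expansion and which are distribution normal
with respect to none of the basic sequences of the family.
-/

set_option autoImplicit false

open Filter Set MeasureTheory
open scoped Topology

namespace Pool.Agent.Results.MP_2274bf_nt.NoBasicSequenceH67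

/-- basic sequences: all terms are at least two -/
def Basic (q : ℕ → ℕ) : Prop := ∀ n, 2 ≤ q n

/-- `T q n x = q_1 q_2 ⋯ q_n x mod 1` (the terms of `q` are `q 0, q 1, …`) -/
noncomputable def T (q : ℕ → ℕ) (n : ℕ) (x : ℝ) : ℝ :=
  Int.fract ((∏ i ∈ Finset.range n, (q i : ℝ)) * x)

/-- uniform distribution of a sequence in `[0,1)` -/
def UD (u : ℕ → ℝ) : Prop := ∀ a b : ℝ, 0 ≤ a → a < b → b ≤ 1 →
  Tendsto (fun N : ℕ => (((Finset.range N).filter (fun n => a ≤ u n ∧ u n < b)).card : ℝ) / N)
    atTop (𝓝 (b - a))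

/-- the set of `Q`-distribution normal numbers -/
def DN (q : ℕ → ℕ) : Set ℝ := {x | UD (fun n => T q n x)}

/-- the Gauss map -/
noncomputable def G (y : ℝ) : ℝ := Int.fract (1 / y)

/-- the digits of the regular continued fraction of `y ∈ (0,1)`, numbered from `0` -/
noncomputable def digit (y : ℝ) (n : ℕ) : ℕ := ⌊1 / G^[n] y⌋₊

/-- the Gauss measure of a subset of `(0,1)` -/
noncomputable def gaussMu (A : Set ℝ) : ℝ := 1 / Real.log 2 * ∫ y in A, 1 / (1 + y)

/-- the numbers in `(0,1)` whose continued fraction begins with the block `w` -/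
def cyl (w : List ℕ) : Set ℝ := {y | y ∈ Ioo (0:ℝ) 1 ∧ ∀ (i : ℕ) (hi : i < w.length), digit y i = w[i]}

/-- the set of numbers which are normal with respect to the regular continued fraction expansion -/
def NCF : Set ℝ := {x | Irrational (Int.fract x) ∧ ∀ w : List ℕ, w ≠ [] → (∀ d ∈ w, 1 ≤ d) →
  Tendsto (fun N : ℕ => (((Finset.range N).filter
    (fun n => ∀ (i : ℕ) (hi : i < w.length), digit (Int.fract x) (n + i) = w[i])).card : ℝ) / N)
    atTop (𝓝 (gaussMu (cyl w)))}

open Pool.Agent.E8helper67.CFN Pool.Agent.R357.CF Pool.Agent.W811.Stu Pool.Agent.W174.Stu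

lemma G_eq : G = gauss := by
  funext y
  unfold G gauss
  rw [one_div]

lemma digit_eq (y : ℝ) (n : ℕ) : digit y n = dig y n := by
  unfold digit dig
  rw [G_eq, one_div]

lemma block_iff (s : ℕ → ℕ) (n : ℕ) (w : List ℕ) :
    (∀ (i : ℕ) (hi : i < w.length), s (n + i) = w[i]) ↔ pre (sh s n) w.length = w := by
  constructor
  · intro h
    apply List.ext_getElem
    · rw [pre_length]
    · intro i h1 h2
      rw [← h i h2]
      simp [pre, sh]
  · intro h i hi
    have h2 : i < (pre (sh s n) w.length).length := by rw [pre_length]; exact hi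
    have e1 : (pre (sh s n) w.length)[i] = s (n + i) := by simp [pre, sh]
    rw [← e1]
    exact List.getElem_of_eq h h2

lemma cyl_mem_iff {c : List ℕ} (hc : Good c) {y : ℝ} (hy : Irrational y) :
    y ∈ cyl c ↔ y ∈ Ioo (lo c) (hi c) := by
  constructor
  · rintro ⟨hy1, h⟩
    have hd := (dig_props hy hy1).1
    have h2 : pre (sh (dig y) 0) c.length = c := by
      rw [← block_iff]
      intro i hi
      rw [← digit_eq, zero_add]
      exact h i hi
    have h3 := (pre_eq_iff (sh_good hd 0) hc).1 h2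
    have e : sh (dig y) 0 = dig y := by funext i; simp [sh]
    rw [e, X_dig hy hy1] at h3
    exact (cyl_iff hc).1 h3
  · rintro ⟨h1, h2⟩
    have hy1 : y ∈ Ioo (0:ℝ) 1 := ⟨(lo_nonneg hc).trans_lt h1, h2.trans_le (hi_le_one hc)⟩
    have hd := (dig_props hy hy1).1
    refine ⟨hy1, ?_⟩
    have h3 := (cyl_iff hc).2 ⟨h1, h2⟩
    have e : sh (dig y) 0 = dig y := by funext i; simp [sh]
    have h4 : pre (sh (dig y) 0) c.length = c := by
      rw [pre_eq_iff (sh_good hd 0) hc, e, X_dig hy hy1]
      exact h3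
    intro i hi
    have := (block_iff (dig y) 0 c).2 h4 i hi
    rw [zero_add] at this
    rw [digit_eq]
    exact this

lemma gaussMu_cyl {c : List ℕ} (hc : Good c) : gaussMu (cyl c) = mu c := by
  unfold gaussMu mu
  have hirr : ∀ᵐ x : ℝ, Irrational x := (countable_range ((↑) : ℚ → ℝ)).ae_notMem volume
  have hae : cyl c =ᵐ[volume] Ioc (lo c) (hi c) := by
    refine Filter.EventuallyEq.trans ?_ Ioo_ae_eq_Ioc
    filter_upwards [hirr] with y hy
    exact propext (cyl_mem_iff hc hy)
  rw [setIntegral_congr_set hae, ← intervalIntegral.integral_of_le (lo_le_hi c)]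
  have h0 := lo_nonneg hc
  have h1 := lo_le_hi c
  have : ∫ x in (lo c)..(hi c), 1 / (1 + x) = ∫ x in (lo c)..(hi c), (fun y => 1 / y) (1 + x) := rfl
  rw [this, intervalIntegral.integral_comp_add_left (fun y : ℝ => 1 / y) 1]
  rw [integral_one_div_of_pos (by linarith) (by linarith), Real.log_div (by linarith) (by linarith)]
  ring

lemma dig_X {s : ℕ → ℕ} (hs : ∀ n, 1 ≤ s n) (n : ℕ) : dig (X s) n = s n := by
  unfold dig
  rw [gauss_iter_X hs, X_eq (sh_good hs n), one_div, inv_inv]
  have h := X_mem (sh_good (sh_good hs n) 1)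
  have e : sh s n 0 = s n := by simp [sh]
  rw [e, Nat.floor_eq_iff (by have := h.1; positivity)]
  constructor <;> linarith [h.1, h.2]

lemma mem_NCF {s : ℕ → ℕ} (hs : ∀ n, 1 ≤ s n)
    (h : ∀ c, c ≠ [] → Good c → Tendsto (fun N : ℕ => (cntb s c N : ℝ) / N) atTop (𝓝 (mu c))) :
    X s ∈ NCF := by
  have hm := X_mem hs
  have hf : Int.fract (X s) = X s := Int.fract_eq_self.2 ⟨hm.1.le, hm.2⟩
  refine ⟨by rw [hf]; exact X_irr hs, ?_⟩
  intro c hc0 hc
  have hc' : Good c := hc
  rw [gaussMu_cyl hc', hf]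
  refine (h c hc0 hc').congr fun N => ?_
  congr 2
  unfold cntb
  congr 1
  apply Finset.filter_congr
  intro n _
  rw [← block_iff]
  constructor
  · intro h1 i hi
    rw [digit_eq, dig_X hs]
    exact h1 i hi
  · intro h1 i hi
    have := h1 i hi
    rw [digit_eq, dig_X hs] at this
    exact this

lemma not_DN {q : ℕ → ℕ} {x : ℝ} (h : ∀ t : ℕ, ∃ J, t ≤ J ∧ 1 ≤ J ∧ Few q x J) : x ∉ DN q := by
  intro hx
  have h1 := hx (1 / 4) (1 / 2) (by norm_num) (by norm_num) (by norm_num)
  obtain ⟨N0, hN0⟩ := Metric.tendsto_atTop.1 h1 (1 / 8) (by norm_num)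
  obtain ⟨J, hJ1, hJ2, hJ3⟩ := h N0
  have h2 := hN0 J hJ1
  rw [Real.dist_eq, abs_lt] at h2
  have hJp : (0:ℝ) < J := by exact_mod_cast hJ2
  have h3 : (8:ℝ) * (((Finset.range J).filter (fun n => 1 / 4 ≤ T q n x ∧ T q n x < 1 / 2)).card : ℝ) ≤ J := by
    unfold Few BB at hJ3
    unfold T
    push_cast at hJ3
    exact_mod_cast hJ3
  have h4 := h2.1
  have h5 : (((Finset.range J).filter (fun n => 1 / 4 ≤ T q n x ∧ T q n x < 1 / 2)).card : ℝ) / J ≤ 1 / 8 := by
    rw [div_le_iff₀ hJp]
    linarith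
  linarith

/-- For every sequence of basic sequences `Q_i`, uncountably many numbers are normal with respect to
the regular continued fraction expansion and distribution normal with respect to no `Q_i`. In
particular no basic sequence `Q` satisfies `DN(Q) = NCF`. -/
theorem result : ∀ q : ℕ → ℕ → ℕ, (∀ i, Basic (q i)) →
    ¬ (NCF \ ⋃ i, DN (q i)).Countable ∧ ∀ i, DN (q i) ≠ NCF := by
  intro q hq
  have key : ∀ y : ℕ → ℝ, ∃ x, x ∈ NCF \ ⋃ i, DN (q i) ∧ ∀ t, x ≠ y t := by
    intro y
    obtain ⟨s, hs, h1, h2, h3⟩ := Pool.Agent.E8helper67.CFN.main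
      (q := fun t => q (Nat.unpair t).1) (fun t n => hq _ n) y
    refine ⟨X s, ⟨mem_NCF hs h1, ?_⟩, h2⟩
    rw [mem_iUnion]
    rintro ⟨i, hi⟩
    refine not_DN (q := q i) ?_ hi
    intro t
    obtain ⟨J, a, b, c⟩ := h3 (Nat.pair i t)
    rw [Nat.unpair_pair] at c
    exact ⟨J, (Nat.right_le_pair i t).trans a, b, c⟩
  refine ⟨?_, ?_⟩
  · intro hcount
    obtain ⟨f, hf⟩ := Set.countable_iff_exists_subset_range.1 hcount
    obtain ⟨x, hx, hne⟩ := key f
    obtain ⟨n, hn⟩ := hf hx
    exact hne n hn.symm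
  · intro i h
    obtain ⟨x, hx, -⟩ := key (fun _ => 0)
    apply hx.2
    rw [mem_iUnion]
    refine ⟨i, ?_⟩
    rw [h]
    exact hx.1

end Pool.Agent.Results.MP_2274bf_nt.NoBasicSequenceH67
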